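import Mathlib

/-!
# Virtually solvable groups: extensions
-/

set_option autoImplicit false

namespace Pool.Agent.P8H67.TT

theorem fi_comap {G G' : Type*} [Group G] [Group G'] (f : G' →* G) (H : Subgroup G)
    (hH : H.FiniteIndex) : (H.comap f).FiniteIndex := by
  refine ⟨?_⟩
  rw [Subgroup.index_comap]
  exact (Subgroup.isFiniteRelIndex_of_finiteIndex (H := H) (K := f.range)).relIndex_ne_zero

/-- Let `f : Γ → G` be a homomorphism whose kernel contains the solvable normal subgroup `T` of `Γ`
with finite index. If a subgroup of finite index of `G` is solvable then so is a subgroup of finite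
index of `Γ`. -/
theorem virt_solv {Γ G : Type*} [Group Γ] [Group G] (f : Γ →* G) (T : Subgroup Γ) [T.Normal]
    (hT : Group.IsSolvable T)
    (hfin : Finite (f.ker.map (QuotientGroup.mk' T))) (A' : Subgroup G)
    (hA' : A'.FiniteIndex) (hs : Group.IsSolvable A') :
    ∃ B : Subgroup Γ, B.FiniteIndex ∧ Group.IsSolvable B := by
  classical
  set q : Γ →* Γ ⧸ T := QuotientGroup.mk' T with hq
  have hqs : Function.Surjective q := QuotientGroup.mk'_surjective T
  set F : Subgroup (Γ ⧸ T) := f.ker.map q with hF
  have hFn : F.Normal := Subgroup.Normal.map inferInstance q hqs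
  set φ : (Γ ⧸ T) →* MulAut F := MulAut.conjNormal with hφ
  have hfa : Finite (MulAut F) := Finite.of_injective (fun e : MulAut F => (e : F → F))
    (fun a b hab => MulEquiv.ext fun x => congrFun hab x)
  have hC : φ.ker.FiniteIndex := Subgroup.finiteIndex_ker φ
  refine ⟨(φ.ker.comap q) ⊓ A'.comap f, ?_, ?_⟩
  · have h1 : (φ.ker.comap q).FiniteIndex := fi_comap q _ hC
    have h2 : (A'.comap f).FiniteIndex := fi_comap f _ hA'
    exact inferInstance
  · set B : Subgroup Γ := (φ.ker.comap q) ⊓ A'.comap f with hB
    -- the map to `A'`
    let g : B →* A' :=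
      { toFun := fun b => ⟨f b, b.2.2⟩
        map_one' := Subtype.ext (by simp)
        map_mul' := fun a b => Subtype.ext (by simp) }
    -- the kernel of `g` is solvable
    have hker : Group.IsSolvable g.ker := by
      have hcomm : ∀ a b : g.ker, q ((a : B) : Γ) * q ((b : B) : Γ) =
          q ((b : B) : Γ) * q ((a : B) : Γ) := by
        intro a b
        have ha : φ (q ((a : B) : Γ)) = 1 := (a : B).2.1
        have hb : ((b : B) : Γ) ∈ f.ker := by
          have := b.2
          rw [MonoidHom.mem_ker] at this
          exact congrArg Subtype.val this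
        have hb' : q ((b : B) : Γ) ∈ F := Subgroup.mem_map_of_mem q hb
        have h1 : ((φ (q ((a : B) : Γ)) ⟨_, hb'⟩ : F) : Γ ⧸ T) = q ((b : B) : Γ) := by
          rw [ha]; rfl
        rw [hφ, MulAut.conjNormal_apply] at h1
        rw [mul_inv_eq_iff_eq_mul] at h1
        exact h1
      let r : g.ker →* Γ ⧸ T := (q.comp B.subtype).comp g.ker.subtype
      have hr : Group.IsSolvable r.range := by
        refine Group.isSolvable_of_comm ?_
        rintro ⟨_, a, rfl⟩ ⟨_, b, rfl⟩
        exact Subtype.ext (hcomm a b)
      have hrk : Group.IsSolvable r.ker := by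
        let i : r.ker →* T :=
          { toFun := fun x => ⟨(((x : g.ker) : B) : Γ), by
              have h := x.2
              rw [MonoidHom.mem_ker] at h
              exact (QuotientGroup.eq_one_iff _).1 h⟩
            map_one' := Subtype.ext rfl
            map_mul' := fun _ _ => Subtype.ext rfl }
        refine Group.isSolvable_of_isSolvable_injective (f := i) ?_
        intro x y hxy
        have := congrArg Subtype.val hxy
        exact Subtype.ext (Subtype.ext (Subtype.ext this))
      exact Group.isSolvable_of_ker_le_range r.ker.subtype r.rangeRestrict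
        (by rw [Subgroup.range_subtype, MonoidHom.ker_rangeRestrict])
    exact Group.isSolvable_of_ker_le_range g.ker.subtype g (by rw [Subgroup.range_subtype])

end Pool.Agent.P8H67.TT
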