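import Pool.Agent.P8H83.Blk
import Pool.Agent.P8H83.Hyp

/-!
Groups of two by two matrices with bounded traces.
-/

set_option autoImplicit false

namespace Pool.Agent.P8H67.TT

open Pool.Agent.P8H83

variable {G : Type} [Group G]

theorem par2 {a : M2} (ha : a ≠ 0) {x u : Fin 2 → ℝ} (hx : a.mulVec x = 0) (hu : a.mulVec u = 0)
    (hu0 : u ≠ 0) : ∃ c : ℝ, x = c • u := by
  have hx0 := congrFun hx 0
  have hx1 := congrFun hx 1
  have hu1 := congrFun hu 0
  have hu2 := congrFun hu 1
  simp only [Matrix.mulVec, dotProduct, Fin.sum_univ_two, Pi.zero_apply] at hx0 hx1 hu1 hu2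
  have hcr : x 0 * u 1 - x 1 * u 0 = 0 := by
    by_contra hne
    apply ha
    have e1 : a 0 0 * (x 0 * u 1 - x 1 * u 0) = 0 := by linear_combination u 1 * hx0 - x 1 * hu1
    have e2 : a 0 1 * (x 0 * u 1 - x 1 * u 0) = 0 := by linear_combination x 0 * hu1 - u 0 * hx0
    have e3 : a 1 0 * (x 0 * u 1 - x 1 * u 0) = 0 := by linear_combination u 1 * hx1 - x 1 * hu2
    have e4 : a 1 1 * (x 0 * u 1 - x 1 * u 0) = 0 := by linear_combination x 0 * hu2 - u 0 * hx1
    refine M2.ext' ?_ ?_ ?_ ?_
    · exact (mul_eq_zero.1 e1).resolve_right hne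
    · exact (mul_eq_zero.1 e2).resolve_right hne
    · exact (mul_eq_zero.1 e3).resolve_right hne
    · exact (mul_eq_zero.1 e4).resolve_right hne
  have hs : u 0 ^ 2 + u 1 ^ 2 ≠ 0 := by
    intro h
    apply hu0
    have h0 : u 0 = 0 := by nlinarith [sq_nonneg (u 0), sq_nonneg (u 1)]
    have h1 : u 1 = 0 := by nlinarith [sq_nonneg (u 0), sq_nonneg (u 1)]
    funext i
    fin_cases i
    · exact h0
    · exact h1
  refine ⟨(x 0 * u 0 + x 1 * u 1) / (u 0 ^ 2 + u 1 ^ 2), ?_⟩
  funext i
  fin_cases i
  · simp only [Fin.zero_eta, Pi.smul_apply, smul_eq_mul]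
    field_simp
    linear_combination u 1 * hcr
  · simp only [Fin.mk_one, Pi.smul_apply, smul_eq_mul]
    field_simp
    linear_combination -u 0 * hcr

theorem sq_zero_of_trace {c : M2} (h1 : c.trace = 0) (h2 : (c * c).trace = 0) : c * c = 0 := by
  rw [Matrix.trace_fin_two] at h1
  have e : c 1 1 = -c 0 0 := by linarith
  have h3 : c 0 0 * c 0 0 + c 0 1 * c 1 0 = 0 := by
    rw [Matrix.trace_fin_two] at h2
    simp only [Matrix.mul_apply, Fin.sum_univ_two] at h2
    rw [e] at h2
    linarith
  have m : ∀ i j, (c * c) i j = c i 0 * c 0 j + c i 1 * c 1 j := fun i j => by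
    rw [Matrix.mul_apply, Fin.sum_univ_two]
  refine M2.ext' ?_ ?_ ?_ ?_
  · rw [m, Matrix.zero_apply]; exact h3
  · rw [m, e, Matrix.zero_apply]; ring
  · rw [m, e, Matrix.zero_apply]; ring
  · rw [m, e, Matrix.zero_apply]; linear_combination h3

theorem inv_or_bounded (B : G →* M2) (htr : ∀ g, |(B g).trace| ≤ 2) :
    (∃ u : Fin 2 → ℝ, u ≠ 0 ∧ ∀ g, ∃ c : ℝ, (B g).mulVec u = c • u) ∨
      ∃ C : ℝ, ∀ g i j, |B g i j| ≤ C := by
  classical
  obtain ⟨A, hA⟩ : ∃ A : Submodule ℝ M2, A = Submodule.span ℝ (Set.range B) := ⟨_, rfl⟩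
  have hBA : ∀ g, B g ∈ A := fun g => by rw [hA]; exact Submodule.subset_span ⟨g, rfl⟩
  by_cases hrad : ∃ a ∈ A, a ≠ 0 ∧ ∀ g, (a * B g).trace = 0
  · left
    obtain ⟨a, haA, ha, htr0⟩ := hrad
    -- the radical is orthogonal to the span
    have hspan : ∀ b ∈ A, (a * b).trace = 0 := by
      intro b hb
      rw [hA] at hb
      induction hb using Submodule.span_induction with
      | mem x hx =>
        obtain ⟨g, rfl⟩ := hx
        exact htr0 g
      | zero => rw [mul_zero]; exact Matrix.trace_zero _ _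
      | add x y _ _ hx hy => rw [mul_add, Matrix.trace_add, hx, hy, add_zero]
      | smul c x _ hx => rw [mul_smul_comm, Matrix.trace_smul, hx, smul_zero]
    have hbab : ∀ g, ∀ b ∈ A, B g * b * B g ∈ A := by
      intro g b hb
      rw [hA] at hb
      induction hb using Submodule.span_induction with
      | mem x hx =>
        obtain ⟨h, rfl⟩ := hx
        rw [← map_mul, ← map_mul]
        exact hBA _
      | zero => rw [mul_zero, zero_mul]; exact A.zero_mem
      | add x y _ _ hx hy => rw [mul_add, add_mul]; exact A.add_mem hx hy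
      | smul c x _ hx => rw [mul_smul_comm, smul_mul_assoc]; exact A.smul_mem _ hx
    have hsq : ∀ g, (a * B g) * (a * B g) = 0 := by
      intro g
      refine sq_zero_of_trace (htr0 g) ?_
      have e : (a * B g) * (a * B g) = a * (B g * a * B g) := by noncomm_ring
      rw [e]
      exact hspan _ (hbab g a haA)
    have haba : ∀ g, a * B g * a = 0 := by
      intro g
      have h1 := hsq g
      have h2 : (a * B g) * (a * B g) * B g⁻¹ = a * B g * a := by
        have h3 : B g * B g⁻¹ = 1 := by rw [← map_mul, mul_inv_cancel, map_one]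
        calc (a * B g) * (a * B g) * B g⁻¹ = a * B g * a * (B g * B g⁻¹) := by noncomm_ring
          _ = a * B g * a := by rw [h3, mul_one]
      rw [← h2, h1, zero_mul]
    obtain ⟨v, hv⟩ : ∃ v : Fin 2 → ℝ, a.mulVec v ≠ 0 := by
      by_contra hcon
      push Not at hcon
      apply ha
      refine Matrix.ext fun i j => ?_
      have h1 := congrFun (hcon (Pi.single j 1)) i
      simpa using h1
    refine ⟨a.mulVec v, hv, fun g => ?_⟩
    refine par2 ha ?_ ?_ hv
    · rw [Matrix.mulVec_mulVec, Matrix.mulVec_mulVec, haba g, Matrix.zero_mulVec]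
    · have h1 := haba 1
      rw [map_one, mul_one] at h1
      rw [Matrix.mulVec_mulVec, h1, Matrix.zero_mulVec]
  · right
    push Not at hrad
    -- a finite set of generators
    obtain ⟨F, hF⟩ : ∃ F : Finset G, ∀ g, B g ∈ Submodule.span ℝ (B '' (F : Set G)) := by
      have hfg : (Submodule.span ℝ (Set.range B)).FG := IsNoetherian.noetherian _
      rw [Submodule.fg_span_iff_fg_span_finset_subset] at hfg
      obtain ⟨s, hs1, hs2⟩ := hfg
      choose! f hf using fun x (hx : x ∈ (s : Set M2)) => hs1 hx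
      refine ⟨s.image f, fun g => ?_⟩
      have h1 : B g ∈ Submodule.span ℝ (Set.range B) := Submodule.subset_span ⟨g, rfl⟩
      rw [hs2] at h1
      refine Submodule.span_mono ?_ h1
      intro x hx
      refine ⟨f x, ?_, hf x hx⟩
      rw [Finset.coe_image]
      exact ⟨x, hx, rfl⟩
    let T : A →ₗ[ℝ] (F → ℝ) :=
      { toFun := fun a g => ((a : M2) * B g).trace
        map_add' := fun a b => by
          funext g
          show (((a : M2) + b) * B g).trace = _
          rw [add_mul, Matrix.trace_add]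
          rfl
        map_smul' := fun c a => by
          funext g
          show ((c • (a : M2)) * B g).trace = _
          rw [smul_mul_assoc, Matrix.trace_smul]
          rfl }
    have hT : LinearMap.ker T = ⊥ := by
      rw [LinearMap.ker_eq_bot']
      intro a ha
      by_contra hne
      obtain ⟨g, hg⟩ := hrad a a.2 (fun h => hne (Subtype.ext h))
      apply hg
      have h1 := hF g
      have h2 : ∀ b ∈ Submodule.span ℝ (B '' (F : Set G)), ((a : M2) * b).trace = 0 := by
        intro b hb
        induction hb using Submodule.span_induction with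
        | mem x hx =>
          obtain ⟨h, hh, rfl⟩ := hx
          exact congrFun ha ⟨h, hh⟩
        | zero => rw [mul_zero]; exact Matrix.trace_zero _ _
        | add x y _ _ hx hy => rw [mul_add, Matrix.trace_add, hx, hy, add_zero]
        | smul c x _ hx => rw [mul_smul_comm, Matrix.trace_smul, hx, smul_zero]
      exact h2 _ h1
    obtain ⟨S, hS⟩ := LinearMap.exists_leftInverse_of_injective T hT
    refine ⟨∑ g : F, ∑ i, ∑ j, 2 * |(S (Pi.single g 1) : M2) i j|, fun h i j => ?_⟩
    have e1 : (S (T ⟨B h, hBA h⟩) : M2) = B h := by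
      have := congrArg (fun L : A →ₗ[ℝ] A => ((L ⟨B h, hBA h⟩ : A) : M2)) hS
      exact this
    have e2 : (S (T ⟨B h, hBA h⟩) : M2) =
        ∑ g : F, (B h * B g).trace • (S (Pi.single g 1) : M2) := by
      rw [LinearMap.pi_apply_eq_sum_univ S (T ⟨B h, hBA h⟩)]
      rw [Submodule.coe_sum]
      refine Finset.sum_congr rfl fun g _ => ?_
      rw [Submodule.coe_smul]
      congr 3
      funext k
      rw [Pi.single_apply]
      simp only [eq_comm]
    rw [← e1, e2, Matrix.sum_apply]
    refine (Finset.abs_sum_le_sum_abs _ _).trans (Finset.sum_le_sum fun g _ => ?_)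
    rw [Matrix.smul_apply, smul_eq_mul, abs_mul]
    have h3 : |(B h * B g).trace| ≤ 2 := by rw [← map_mul]; exact htr _
    have h4 : 2 * |(S (Pi.single g 1) : M2) i j| ≤ ∑ j, 2 * |(S (Pi.single g 1) : M2) i j| :=
      Finset.single_le_sum (f := fun j => 2 * |(S (Pi.single g 1) : M2) i j|)
        (fun j _ => by positivity) (Finset.mem_univ j)
    have h5 : ∑ j, 2 * |(S (Pi.single g 1) : M2) i j| ≤
        ∑ i, ∑ j, 2 * |(S (Pi.single g 1) : M2) i j| :=
      Finset.single_le_sum (f := fun i => ∑ j, 2 * |(S (Pi.single g 1) : M2) i j|)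
        (fun i _ => Finset.sum_nonneg fun j _ => by positivity) (Finset.mem_univ i)
    exact (mul_le_mul_of_nonneg_right h3 (abs_nonneg _)).trans (h4.trans h5)

/-- a group of upper triangular matrices is solvable -/
theorem tri_series (B : G →* M2) (h10 : ∀ g, B g 1 0 = 0) : derivedSeries G 2 ≤ B.ker := by
  have hmul : ∀ g h, B (g * h) 0 0 = B g 0 0 * B h 0 0 ∧ B (g * h) 1 1 = B g 1 1 * B h 1 1 ∧
      B (g * h) 0 1 = B g 0 0 * B h 0 1 + B g 0 1 * B h 1 1 := by
    intro g h
    have m : ∀ i j, B (g * h) i j = B g i 0 * B h 0 j + B g i 1 * B h 1 j := fun i j => by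
      rw [map_mul, Matrix.mul_apply, Fin.sum_univ_two]
    refine ⟨?_, ?_, m 0 1⟩
    · rw [m, h10, mul_zero, add_zero]
    · rw [m, h10, zero_mul, zero_add]
  let d : G →* ℝ × ℝ :=
    { toFun := fun g => (B g 0 0, B g 1 1)
      map_one' := by rw [map_one]; simp
      map_mul' := fun g h => Prod.ext (hmul g h).1 (hmul g h).2.1 }
  have hcom : ∀ {M : Type} [Monoid M] (f : G →* M) (a b : G), f a * f b = f b * f a →
      f (a * b * a⁻¹ * b⁻¹) = 1 := by
    intro M _ f a b h
    have h1 : f a * f a⁻¹ = 1 := by rw [← map_mul, mul_inv_cancel, map_one]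
    have h2 : f b * f b⁻¹ = 1 := by rw [← map_mul, mul_inv_cancel, map_one]
    rw [map_mul, map_mul, map_mul, h, mul_assoc (f b), h1, mul_one, h2]
  have hS := derived_le (G := G) (fun n => if n = 0 then ⊤ else if n = 1 then d.ker else B.ker)
    (by simp) (by
      intro i a ha b hb
      rcases i with _ | _ | i
      · simp only [zero_add, one_ne_zero, if_false, if_true]
        rw [MonoidHom.mem_ker]
        exact hcom d a b (mul_comm _ _)
      · simp only [zero_add, one_ne_zero, if_false, if_true] at ha hb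
        simp only [zero_add, Nat.reduceAdd, OfNat.ofNat_ne_zero, if_false, OfNat.ofNat_ne_one]
        rw [MonoidHom.mem_ker]
        rw [MonoidHom.mem_ker] at ha hb
        refine hcom B a b ?_
        have a1 : B a 0 0 = 1 := congrArg Prod.fst ha
        have a2 : B a 1 1 = 1 := congrArg Prod.snd ha
        have b1 : B b 0 0 = 1 := congrArg Prod.fst hb
        have b2 : B b 1 1 = 1 := congrArg Prod.snd hb
        rw [← map_mul, ← map_mul]
        obtain ⟨x1, x2, x3⟩ := hmul a b
        obtain ⟨y1, y2, y3⟩ := hmul b a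
        refine M2.ext' ?_ ?_ ?_ ?_
        · rw [x1, y1, mul_comm]
        · rw [x3, y3, a1, a2, b1, b2]; ring
        · rw [h10, h10]
        · rw [x2, y2, mul_comm]
      · simp only [Nat.add_eq_zero_iff, one_ne_zero, and_false, if_false] at ha hb ⊢
        have hne : i + 1 + 1 ≠ 1 := by omega
        have hne' : i + 1 + 1 + 1 ≠ 1 := by omega
        rw [if_neg hne] at ha hb
        rw [if_neg hne']
        rw [MonoidHom.mem_ker] at ha hb ⊢
        refine hcom B a b ?_
        rw [ha, hb]) 2
  simpa using hS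

end Pool.Agent.P8H67.TT
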