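import Pool.Agent.P8H67.TT.Lin2
import Pool.Agent.P8H83.TowerT
import Pool.Agent.P8H83.SolvLin
import Pool.Agent.N520.RO.Asm

/-!
Quotients of domains of dimension at most two are virtually solvable.
-/

set_option autoImplicit false

open Set Filter Topology Metric
open Pool.Agent.W689.Mk Pool.Agent.TH94.MK

namespace Pool.Agent.P8H67.TT

open Pool.Agent.P8H83

section
variable {Γ E : Type} [Group Γ] [NormedAddCommGroup E] [NormedSpace ℝ E]

/-- the linear holonomy in coordinates -/
noncomputable def Bh (hol : Γ →* (E ≃ᵃ[ℝ] E)) (b : Module.Basis (Fin 2) ℝ E) : Γ →* M2 where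
  toFun γ := LinearMap.toMatrix b b ((hol γ).linear : E →ₗ[ℝ] E)
  map_one' := by
    rw [map_one]
    exact LinearMap.toMatrix_one b
  map_mul' γ δ := by
    rw [map_mul]
    exact LinearMap.toMatrix_mul b ((hol γ).linear : E →ₗ[ℝ] E) ((hol δ).linear : E →ₗ[ℝ] E)

theorem Bh_apply (hol : Γ →* (E ≃ᵃ[ℝ] E)) (b : Module.Basis (Fin 2) ℝ E) (γ : Γ) :
    Bh hol b γ = LinearMap.toMatrix b b ((hol γ).linear : E →ₗ[ℝ] E) := rfl

theorem Bh_mulVec (hol : Γ →* (E ≃ᵃ[ℝ] E)) (b : Module.Basis (Fin 2) ℝ E) (γ : Γ) (v : E) :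
    (Bh hol b γ).mulVec (b.repr v) = b.repr ((hol γ).linear v) :=
  LinearMap.toMatrix_mulVec_repr b b ((hol γ).linear : E →ₗ[ℝ] E) v

theorem Bh_ker (hol : Γ →* (E ≃ᵃ[ℝ] E)) (b : Module.Basis (Fin 2) ℝ E) :
    (Bh hol b).ker ≤ (AffineEquiv.linearHom.comp hol).ker := by
  intro γ hγ
  rw [MonoidHom.mem_ker] at hγ ⊢
  refine LinearEquiv.ext fun v => ?_
  show (hol γ).linear v = v
  apply b.repr.injective
  apply DFunLike.coe_injective
  rw [← Bh_mulVec, hγ, Matrix.one_mulVec]

end

section
variable {X Γ E : Type} [NormedAddCommGroup E] [NormedSpace ℝ E] [FiniteDimensional ℝ E]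
    [TopologicalSpace X] [T2Space X] [Group Γ] [MulAction Γ X]
    {dev : X → E} {hol : Γ →* (E ≃ᵃ[ℝ] E)}

/-- the traces of the linear holonomy of a complete affine surface -/
theorem trace_le (D : AffData X Γ E dev hol) (hdev : IsHomeomorph dev)
    (b : Module.Basis (Fin 2) ℝ E) (γ : Γ) : |(Bh hol b γ).trace| ≤ 2 := by
  by_contra hcon
  push Not at hcon
  have hdet : |(Bh hol b γ).det| = 1 := by
    have h1 := D.unimod γ
    rw [← LinearMap.det_toMatrix b] at h1
    exact h1
  -- the linear part has infinite order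
  have hpow : ∀ k : ℕ, 0 < k → (Bh hol b γ) ^ k ≠ 1 := by
    intro k hk hk1
    rcases eq_or_eq_neg_of_abs_eq hdet with h | h
    · exact pow_ne_one_of_abs_trace h hcon k hk hk1
    · obtain ⟨A, hA⟩ : ∃ A : M2, A = Bh hol b γ := ⟨_, rfl⟩
      rw [← hA] at hk1 h hcon
      have h1 : (A * A).det = 1 := by rw [Matrix.det_mul, h]; norm_num
      have h2 : 2 < (A * A).trace := by
        have e : (A * A).trace = A.trace ^ 2 + 2 := by
          rw [cayley, h, Matrix.trace_sub, Matrix.trace_smul, Matrix.trace_smul, smul_eq_mul,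
            smul_eq_mul]
          simp only [Matrix.trace_one, Fintype.card_fin, Nat.cast_ofNat]
          ring
        have h3 : 0 < A.trace ^ 2 := by
          rw [← sq_abs]
          have : 0 < |A.trace| := by linarith
          positivity
        rw [e]
        linarith
      apply pow_ne_one_of_trace h1 h2 k hk
      rw [← pow_two, ← pow_mul, mul_comm, pow_mul, hk1, one_pow]
  -- there is a fixed point
  have hfix : ∃ p : E, hol γ p = p := by
    obtain ⟨A, hA⟩ : ∃ A : M2, A = Bh hol b γ := ⟨_, rfl⟩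
    have hd : (1 - A).det ≠ 0 := by
      have e : (1 - A).det = 1 - A.trace + A.det := by
        rw [Matrix.det_fin_two, Matrix.trace_fin_two, Matrix.det_fin_two]
        simp only [Matrix.sub_apply, Matrix.one_apply_eq, Matrix.one_apply_ne, ne_eq, zero_ne_one,
          not_false_eq_true, one_ne_zero, zero_sub]
        ring
      rw [e]
      intro h0
      rw [← hA] at hdet hcon
      have h1 : A.trace = 1 + A.det := by linarith
      have h2 : |A.trace| ≤ 1 + |A.det| := by
        rw [h1]
        exact (abs_add_le _ _).trans (by rw [abs_one])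
      rw [hdet] at h2
      linarith
    obtain ⟨v, hv⟩ : ∃ v : E, v - (hol γ).linear v = hol γ 0 := by
      have hu : IsUnit (1 - A).det := isUnit_iff_ne_zero.2 hd
      refine ⟨b.equivFun.symm ((1 - A)⁻¹.mulVec (b.repr (hol γ 0))), ?_⟩
      apply b.equivFun.injective
      rw [map_sub]
      have h1 : ∀ w : E, b.equivFun ((hol γ).linear w) = A.mulVec (b.equivFun w) := by
        intro w
        rw [hA]
        exact (Bh_mulVec hol b γ w).symm
      rw [h1, LinearEquiv.apply_symm_apply]
      have h2 : ∀ x : Fin 2 → ℝ, x - A.mulVec x = (1 - A).mulVec x := by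
        intro x
        rw [Matrix.sub_mulVec, Matrix.one_mulVec]
      rw [h2, Matrix.mulVec_mulVec, Matrix.mul_nonsing_inv _ hu, Matrix.one_mulVec]
      rfl
    refine ⟨v, ?_⟩
    have h3 : hol γ v = hol γ 0 + (hol γ).linear v := by
      have := hol_add (hol := hol) γ 0 v
      rwa [zero_add] at this
    rw [h3, ← hv]
    abel
  obtain ⟨p, hp⟩ := hfix
  obtain ⟨x, rfl⟩ := hdev.surjective p
  have hfin := stab_finite D hdev.injective x
  have hpowfix : ∀ n : ℕ, hol (γ ^ n) (dev x) = dev x := by
    intro n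
    induction n with
    | zero => rw [pow_zero, map_one]; rfl
    | succ n ih =>
      rw [pow_succ, map_mul]
      show hol (γ ^ n) (hol γ (dev x)) = dev x
      rw [hp, ih]
  obtain ⟨m, n, hmn, hne⟩ : ∃ m n : ℕ, m < n ∧ γ ^ m = γ ^ n := by
    have h1 : ¬ Function.Injective (fun n : ℕ => γ ^ n) := by
      intro hinj
      have h2 : (Set.range fun n : ℕ => γ ^ n).Finite :=
        hfin.subset (by rintro _ ⟨n, rfl⟩; exact hpowfix n)
      exact (Set.infinite_range_of_injective hinj) h2
    rw [Function.Injective] at h1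
    push Not at h1
    obtain ⟨m, n, h2, h3⟩ := h1
    rcases lt_or_gt_of_ne h3 with h | h
    · exact ⟨m, n, h, h2⟩
    · exact ⟨n, m, h, h2.symm⟩
  apply hpow (n - m) (by omega)
  rw [← map_pow]
  have h4 : γ ^ (n - m) = 1 := by
    have h5 : γ ^ n = γ ^ m * γ ^ (n - m) := by rw [← pow_add]; congr 1; omega
    rw [h5] at hne
    exact (mul_eq_left.1 hne.symm)
  rw [h4, map_one]

end

/-- in dimension at most two the holonomy group is virtually solvable -/
theorem low_solv {X Γ Q : Type} [NormedAddCommGroup Q] [NormedSpace ℝ Q] [FiniteDimensional ℝ Q]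
    [TopologicalSpace X] [T2Space X] [SecondCountableTopology X] [ConnectedSpace X] [Group Γ]
    [MulAction Γ X] {dev : X → Q} {hol : Γ →* (Q ≃ᵃ[ℝ] Q)} (D : AffData X Γ Q dev hol)
    (hinj : Function.Injective dev) (h2 : Module.finrank ℝ Q ≤ 2) :
    ∃ H' : Subgroup Γ, H'.FiniteIndex ∧ Group.IsSolvable (H'.map hol) := by
  rcases Nat.lt_or_ge (Module.finrank ℝ Q) 2 with h | h
  · refine ⟨⊤, inferInstance, solv_of_lin hol ⊤ ?_⟩
    refine Group.isSolvable_of_comm fun a b => Subtype.ext ?_
    exact comm_one (by omega) _ _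
  · have h2' : Module.finrank ℝ Q = 2 := le_antisymm h2 h
    have hdev := low_dim D hinj h2
    obtain b0 := Module.finBasisOfFinrankEq ℝ Q h2'
    rcases inv_or_bounded (Bh hol b0) (trace_le D hdev b0) with ⟨u, hu, hline⟩ | ⟨C, hC⟩
    · -- an invariant line
      obtain ⟨e, he⟩ : ∃ e : Q, e = b0.equivFun.symm u := ⟨_, rfl⟩
      have he0 : e ≠ 0 := by
        rw [he]
        intro h0
        apply hu
        rwa [LinearEquiv.map_eq_zero_iff] at h0
      have hinv : ∀ γ, ∃ c : ℝ, (hol γ).linear e = c • e := by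
        intro γ
        obtain ⟨c, hc⟩ := hline γ
        refine ⟨c, ?_⟩
        apply b0.equivFun.injective
        have h1 : b0.equivFun ((hol γ).linear e) = (Bh hol b0 γ).mulVec (b0.equivFun e) :=
          (Bh_mulVec hol b0 γ e).symm
        rw [h1, map_smul, he, LinearEquiv.apply_symm_apply, hc]
      obtain ⟨f, hf⟩ : ∃ f : Q, f ∉ Submodule.span ℝ {e} := by
        by_contra hcon
        push Not at hcon
        have h1 : Submodule.span ℝ {e} = (⊤ : Submodule ℝ Q) := eq_top_iff.2 fun x _ => hcon x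
        have h3 := finrank_span_singleton (K := ℝ) he0
        rw [h1, finrank_top] at h3
        omega
      have hli : LinearIndependent ℝ ![e, f] := by
        rw [LinearIndependent.pair_iff]
        intro s t hst
        have ht : t = 0 := by
          by_contra ht
          apply hf
          rw [Submodule.mem_span_singleton]
          refine ⟨-(t⁻¹ * s), ?_⟩
          have h1 : t • f = -(s • e) := by rw [← sub_eq_zero, sub_neg_eq_add, add_comm]; exact hst
          have h3 : f = t⁻¹ • (t • f) := by rw [smul_smul, inv_mul_cancel₀ ht, one_smul]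
          rw [h3, h1, smul_neg, smul_smul, neg_smul]
        refine ⟨?_, ht⟩
        rw [ht, zero_smul, add_zero] at hst
        exact (smul_eq_zero.1 hst).resolve_right he0
      let b : Module.Basis (Fin 2) ℝ Q :=
        basisOfLinearIndependentOfCardEqFinrank hli (by rw [Fintype.card_fin, h2'])
      have hb0 : b 0 = e := by
        show (basisOfLinearIndependentOfCardEqFinrank hli _) 0 = e
        rw [coe_basisOfLinearIndependentOfCardEqFinrank]
        rfl
      have h10 : ∀ g, Bh hol b g 1 0 = 0 := by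
        intro g
        rw [Bh_apply, LinearMap.toMatrix_apply, hb0]
        obtain ⟨c, hc⟩ := hinv g
        have h1 : ((hol g).linear : Q →ₗ[ℝ] Q) e = c • b 0 := by rw [hb0]; exact hc
        rw [h1, map_smul, Module.Basis.repr_self]
        simp
      refine ⟨⊤, inferInstance, solv_of_lin hol ⊤ ?_⟩
      exact solv_map_top _ 2 ((tri_series (Bh hol b) h10).trans (Bh_ker hol b))
    · -- bounded linear holonomy
      have hne : Nonempty X := inferInstance
      obtain ⟨K, hK⟩ : ∃ K : ℝ, ∀ (v : Q) (i : Fin 2), |b0.repr v i| ≤ K * ‖v‖ := by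
        let L : Q →L[ℝ] (Fin 2 → ℝ) := LinearMap.toContinuousLinearMap (b0.equivFun : Q →ₗ[ℝ] _)
        refine ⟨‖L‖, fun v i => ?_⟩
        have h1 : ‖L v i‖ ≤ ‖L v‖ := norm_le_pi_norm (L v) i
        exact h1.trans (L.le_opNorm v)
      have hC0 : 0 ≤ C := (abs_nonneg _).trans (hC 1 0 0)
      have hbd : ∀ γ v, ‖(hol γ).linear v‖ ≤
          ((∑ i : Fin 2, ∑ j : Fin 2, C * ‖b0 j‖) * |K| + 1) * 1 * ‖v‖ := by
        intro γ v
        have e1 : (hol γ).linear v = ∑ j, ∑ i, (Bh hol b0 γ j i * b0.repr v i) • b0 j := by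
          have h1 := b0.sum_repr ((hol γ).linear v)
          rw [← h1]
          refine Finset.sum_congr rfl fun j _ => ?_
          rw [← Finset.sum_smul]
          congr 1
          rw [← Bh_mulVec]
          rfl
        rw [e1]
        refine (norm_sum_le _ _).trans ?_
        have e2 : ∀ j : Fin 2, ‖∑ i, (Bh hol b0 γ j i * b0.repr v i) • b0 j‖ ≤
            ∑ i : Fin 2, C * ‖b0 j‖ * (|K| * ‖v‖) := by
          intro j
          refine (norm_sum_le _ _).trans (Finset.sum_le_sum fun i _ => ?_)
          rw [norm_smul, norm_mul, Real.norm_eq_abs, Real.norm_eq_abs]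
          have h3 := hK v i
          have h4 : |b0.repr v i| ≤ |K| * ‖v‖ :=
            h3.trans (mul_le_mul_of_nonneg_right (le_abs_self K) (norm_nonneg v))
          calc |Bh hol b0 γ j i| * |b0.repr v i| * ‖b0 j‖ ≤ C * (|K| * ‖v‖) * ‖b0 j‖ := by
                gcongr
                exact hC γ j i
            _ = C * ‖b0 j‖ * (|K| * ‖v‖) := by ring
        refine (Finset.sum_le_sum fun j _ => e2 j).trans ?_
        rw [Finset.sum_comm]
        have e3 : ∑ i : Fin 2, ∑ j : Fin 2, C * ‖b0 j‖ * (|K| * ‖v‖) =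
            (∑ i : Fin 2, ∑ j : Fin 2, C * ‖b0 j‖) * |K| * ‖v‖ := by
          rw [mul_assoc, Finset.sum_mul]
          refine Finset.sum_congr rfl fun i _ => ?_
          rw [Finset.sum_mul]
        rw [e3]
        have h5 := norm_nonneg v
        nlinarith
      refine (Pool.Agent.N520.RO.quasi X Γ Q dev hol D hinj ⊤ inferInstance
        (fun i => if i = 0 then ⊥ else ⊤) 1 ⟨by simp, by simp, fun i _ => ?_, fun i _ γ _ v hv => ?_,
          (∑ i : Fin 2, ∑ j : Fin 2, C * ‖b0 j‖) * |K| + 1, fun i hi γ _ =>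
          ⟨1, one_pos, fun v _ => ⟨⟨0, Submodule.zero_mem _, ?_⟩, 0, Submodule.zero_mem _, ?_⟩⟩⟩).2
      · exact le_of_le_of_eq le_top (if_neg (Nat.succ_ne_zero i)).symm
      · by_cases hi : i = 0
        · simp only [hi, if_true, Submodule.mem_bot] at hv ⊢
          rw [hv, map_zero]
        · simp only [hi, if_false]
          trivial
      · rw [sub_zero]
        exact hbd γ v
      · rw [sub_zero, inv_one]
        exact hbd γ⁻¹ v

end Pool.Agent.P8H67.TT
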