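import Pool.Agent.P8H67.TT.Low
import Pool.Agent.N520.RO.Plane

/-!
Trivial action on the quotient by a plane: virtual solvability.
-/

set_option autoImplicit false

open Set Filter Topology Metric
open Pool.Agent.W689.Mk Pool.Agent.TH94.MK
open scoped commutatorElement

namespace Pool.Agent.P8H67.TT

open Pool.Agent.P8H83

theorem pow_ne' {A : M2} (hdet : |A.det| = 1) (htr : 2 < |A.trace|) (k : ℕ) (hk : 0 < k) :
    A ^ k ≠ 1 := by
  intro hk1
  rcases eq_or_eq_neg_of_abs_eq hdet with h | h
  · exact pow_ne_one_of_abs_trace h htr k hk hk1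
  · have h1 : (A * A).det = 1 := by rw [Matrix.det_mul, h]; norm_num
    have h2 : 2 < (A * A).trace := by
      have e : (A * A).trace = A.trace ^ 2 + 2 := by
        rw [cayley, h, Matrix.trace_sub, Matrix.trace_smul, Matrix.trace_smul, smul_eq_mul,
          smul_eq_mul]
        simp only [Matrix.trace_one, Fintype.card_fin, Nat.cast_ofNat]
        ring
      have h3 : 0 < A.trace ^ 2 := by
        rw [← sq_abs]
        have : 0 < |A.trace| := by linarith
        positivity
      rw [e]
      linarith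
    apply pow_ne_one_of_trace h1 h2 k hk
    rw [← pow_two, ← pow_mul, mul_comm, pow_mul, hk1, one_pow]

theorem det_one_sub {A : M2} (hdet : |A.det| = 1) (htr : 2 < |A.trace|) : (1 - A).det ≠ 0 := by
  have e : (1 - A).det = 1 - A.trace + A.det := by
    rw [Matrix.det_fin_two, Matrix.trace_fin_two, Matrix.det_fin_two]
    simp only [Matrix.sub_apply, Matrix.one_apply_eq, Matrix.one_apply_ne, ne_eq, zero_ne_one,
      not_false_eq_true, one_ne_zero, zero_sub]
    ring
  rw [e]
  intro h0
  have h1 : A.trace = 1 + A.det := by linarith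
  have h2 : |A.trace| ≤ 1 + |A.det| := by
    rw [h1]
    exact (abs_add_le _ _).trans (by rw [abs_one])
  rw [hdet] at h2
  linarith

/-- a group of traces at most two is solvable -/
theorem solv_of_trace {G : Type} [Group G] (B : G →* M2) (N : Subgroup G)
    (hN : ∀ a b : G, ⁅a, b⁆ ∈ N) (hdet : ∀ g, |(B g).det| = 1)
    (htr : ∀ n ∈ N, |(B n).trace| ≤ 2) : derivedSeries G 3 ≤ B.ker := by
  have hNE : ¬ NE (B.comp N.subtype) ⊤ := by
    intro h
    obtain ⟨g, -, hg⟩ := hyp_exists h (fun g => hdet g)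
    exact absurd (htr g g.2) (not_le.2 hg)
  unfold NE at hNE
  push Not at hNE
  obtain ⟨Y, hY, hY0, hYc⟩ := hNE
  have hc : ∀ n ∈ N, ∃ c : ℝ, B n * Y = c • (Y * B n) := fun n hn =>
    hYc ⟨n, hn⟩ (Subgroup.mem_top _)
  have hS := derived_le (G := G) (fun n => if n = 0 then ⊤ else if n = 1 then N else
      if n = 2 then cen B Y else B.ker) (by simp) (by
    intro i a ha b hb
    rcases i with _ | _ | _ | i
    · exact hN a b
    · exact comm_cen B hY0 (hc a ha) (hc b hb)
    · exact comm_ker B (comm_of_cen hY hY0 ha hb)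
    · have h1 : ∀ g : G, g ∈ (fun n : ℕ => if n = 0 then (⊤ : Subgroup G) else if n = 1 then N else
          if n = 2 then cen B Y else B.ker) (i + 1 + 1 + 1) → B g = 1 := by
        intro g hg
        simpa using hg
      have h2 : ⁅a, b⁆ ∈ B.ker := comm_ker B (by rw [h1 a ha, h1 b hb])
      have h3 : (fun n : ℕ => if n = 0 then (⊤ : Subgroup G) else if n = 1 then N else
          if n = 2 then cen B Y else B.ker) (i + 1 + 1 + 1 + 1) = B.ker := by simp
      exact (SetLike.ext_iff.1 h3 _).2 h2) 3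
  exact hS

/-- trivial action on the quotient by a plane -/
theorem plane_vs {X Γ E : Type} [NormedAddCommGroup E] [NormedSpace ℝ E]
    [FiniteDimensional ℝ E] [TopologicalSpace X] [T2Space X] [SecondCountableTopology X]
    [ConnectedSpace X] [Group Γ] [MulAction Γ X] {dev : X → E} {hol : Γ →* (E ≃ᵃ[ℝ] E)}
    (D : AffData X Γ E dev hol) (hinj : Function.Injective dev) (H : Subgroup Γ)
    (hH : H.FiniteIndex) (W : Submodule ℝ E) (hW2 : Module.finrank ℝ W = 2)
    (hW : ∀ γ ∈ H, ∀ v : E, (hol γ).linear v - v ∈ W) :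
    IsHomeomorph dev ∧ ∃ H' : Subgroup Γ, H'.FiniteIndex ∧ Group.IsSolvable (H'.map hol) := by
  have hdev : IsHomeomorph dev :=
    Pool.Agent.N520.RO.plane_case X Γ E dev hol D hinj H hH W hW2 hW
  refine ⟨hdev, H, hH, ?_⟩
  have hmem : ∀ γ ∈ H, ∀ v ∈ W, (hol γ).linear v ∈ W := by
    intro γ hγ v hv
    have := Submodule.add_mem _ (hW γ hγ v) hv
    rwa [sub_add_cancel] at this
  -- the restriction
  let Bl : H → W →ₗ[ℝ] W := fun γ =>
    ((hol γ).linear : E →ₗ[ℝ] E).restrict (fun v hv => hmem γ γ.2 v hv)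
  have hBl : ∀ (γ : H) (v : W), ((Bl γ v : W) : E) = (hol γ).linear (v : E) := fun γ v => rfl
  have hBmul : ∀ γ δ : H, Bl (γ * δ) = (Bl γ) * (Bl δ) := by
    intro γ δ
    refine LinearMap.ext fun v => Subtype.ext ?_
    rw [hBl, Module.End.mul_apply, hBl, hBl, Subgroup.coe_mul, map_mul]
    rfl
  have hBone : Bl 1 = 1 := by
    refine LinearMap.ext fun v => Subtype.ext ?_
    rw [hBl, Subgroup.coe_one, map_one]
    rfl
  have hdetl : ∀ γ : H, |LinearMap.det (Bl γ)| = 1 := by
    intro γ
    have h1 := LinearMap.det_eq_det_mul_det W ((hol γ).linear : E →ₗ[ℝ] E)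
      (fun v hv => hmem γ γ.2 v hv)
    have h2 : W.mapQ W ((hol γ).linear : E →ₗ[ℝ] E) (fun v hv => hmem γ γ.2 v hv) =
        LinearMap.id := by
      refine Submodule.linearMap_qext _ (LinearMap.ext fun v => ?_)
      show Submodule.Quotient.mk ((hol γ).linear v) = Submodule.Quotient.mk v
      rw [Submodule.Quotient.eq]
      exact hW γ γ.2 v
    rw [h2, LinearMap.det_id, mul_one] at h1
    have h3 := D.unimod γ
    rw [h1] at h3
    exact h3
  let b : Module.Basis (Fin 2) ℝ W := Module.finBasisOfFinrankEq ℝ W hW2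
  let B : H →* M2 :=
    { toFun := fun γ => LinearMap.toMatrix b b (Bl γ)
      map_one' := by rw [hBone]; exact LinearMap.toMatrix_one b
      map_mul' := fun γ δ => by rw [hBmul]; exact LinearMap.toMatrix_mul b _ _ }
  have hBdef : ∀ γ, B γ = LinearMap.toMatrix b b (Bl γ) := fun γ => rfl
  have hdet : ∀ γ : H, |(B γ).det| = 1 := by
    intro γ
    rw [hBdef, LinearMap.det_toMatrix]
    exact hdetl γ
  have hBv : ∀ (γ : H) (w : W), b.equivFun (Bl γ w) = (B γ).mulVec (b.equivFun w) := fun γ w =>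
    (LinearMap.toMatrix_mulVec_repr b b (Bl γ) w).symm
  -- translations commute modulo `W`
  have hlz : ∀ (γ : Γ) (v : E), hol γ v = hol γ 0 + (hol γ).linear v := by
    intro γ v
    have := hol_add (hol := hol) γ 0 v
    rwa [zero_add] at this
  have hmod : ∀ γ ∈ H, ∀ v : E, W.mkQ (hol γ v) = W.mkQ v + W.mkQ (hol γ 0) := by
    intro γ hγ v
    rw [hlz γ v, map_add, add_comm]
    congr 1
    rw [← sub_eq_zero, ← map_sub]
    show W.mkQ _ = 0
    rw [Submodule.mkQ_apply, Submodule.Quotient.mk_eq_zero]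
    exact hW γ hγ v
  let τ : H →* Multiplicative (E ⧸ W) :=
    { toFun := fun γ => Multiplicative.ofAdd (W.mkQ (hol (γ : Γ) 0))
      map_one' := by
        rw [Subgroup.coe_one, map_one]
        show Multiplicative.ofAdd (W.mkQ 0) = 1
        rw [map_zero]
        rfl
      map_mul' := by
        intro γ δ
        have h1 : hol ((γ * δ : H) : Γ) 0 = hol (γ : Γ) (hol (δ : Γ) 0) := by
          rw [Subgroup.coe_mul, map_mul]
          rfl
        rw [h1, hmod _ γ.2, add_comm]
        rfl }
  have hτ : ∀ a b : H, ⁅a, b⁆ ∈ τ.ker := by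
    intro a b
    rw [MonoidHom.mem_ker, commutatorElement_def, map_mul, map_mul, map_mul, map_inv, map_inv,
      mul_comm (τ a) (τ b), mul_assoc (τ b), mul_inv_cancel, mul_one, mul_inv_cancel]
  have hτW : ∀ n ∈ τ.ker, hol (n : Γ) 0 ∈ W := by
    intro n hn
    have h1 : W.mkQ (hol (n : Γ) 0) = 0 := by
      have : τ n = 1 := hn
      exact Multiplicative.ofAdd.injective this
    rwa [Submodule.mkQ_apply, Submodule.Quotient.mk_eq_zero] at h1
  -- the traces
  have htr : ∀ n ∈ τ.ker, |(B n).trace| ≤ 2 := by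
    intro n hn
    by_contra hcon
    push Not at hcon
    have hd := det_one_sub (hdet n) hcon
    have hu : IsUnit (1 - B n).det := isUnit_iff_ne_zero.2 hd
    obtain ⟨t, ht⟩ : ∃ t : W, t = ⟨hol (n : Γ) 0, hτW n hn⟩ := ⟨_, rfl⟩
    obtain ⟨w, hw⟩ : ∃ w : W, w - Bl n w = t := by
      refine ⟨b.equivFun.symm ((1 - B n)⁻¹.mulVec (b.equivFun t)), ?_⟩
      apply b.equivFun.injective
      rw [map_sub, hBv, LinearEquiv.apply_symm_apply]
      have h2 : ∀ x : Fin 2 → ℝ, x - (B n).mulVec x = (1 - B n).mulVec x := by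
        intro x
        rw [Matrix.sub_mulVec, Matrix.one_mulVec]
      rw [h2, Matrix.mulVec_mulVec, Matrix.mul_nonsing_inv _ hu, Matrix.one_mulVec]
    have hp : hol (n : Γ) (w : E) = w := by
      have h3 := congrArg (fun x : W => (x : E)) hw
      have h4 : (w : E) - (hol (n : Γ)).linear (w : E) = hol (n : Γ) 0 := by
        rw [ht] at h3
        exact h3
      rw [hlz, ← h4]
      abel
    obtain ⟨x, hx⟩ := hdev.surjective (w : E)
    have hfin := stab_finite D hdev.injective x
    have hpowfix : ∀ m : ℕ, hol ((n ^ m : H) : Γ) (dev x) = dev x := by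
      intro m
      induction m with
      | zero => rw [pow_zero, Subgroup.coe_one, map_one]; rfl
      | succ m ih =>
        rw [pow_succ, Subgroup.coe_mul, map_mul]
        show hol ((n ^ m : H) : Γ) (hol (n : Γ) (dev x)) = dev x
        rw [hx, hp, ← hx, ih]
    obtain ⟨m, k, hmn, hne⟩ : ∃ m k : ℕ, m < k ∧ n ^ m = n ^ k := by
      have h1 : ¬ Function.Injective (fun m : ℕ => ((n ^ m : H) : Γ)) := by
        intro hi
        have h2 : (Set.range fun m : ℕ => ((n ^ m : H) : Γ)).Finite :=
          hfin.subset (by rintro _ ⟨m, rfl⟩; exact hpowfix m)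
        exact (Set.infinite_range_of_injective hi) h2
      rw [Function.Injective] at h1
      push Not at h1
      obtain ⟨m, k, h2, h3⟩ := h1
      rcases lt_or_gt_of_ne h3 with h | h
      · exact ⟨m, k, h, Subtype.ext h2⟩
      · exact ⟨k, m, h, Subtype.ext h2.symm⟩
    apply pow_ne' (hdet n) hcon (k - m) (by omega)
    rw [← map_pow]
    have h4 : n ^ (k - m) = 1 := by
      have h5 : n ^ k = n ^ m * n ^ (k - m) := by rw [← pow_add]; congr 1; omega
      rw [h5] at hne
      exact (mul_eq_left.1 hne.symm)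
    rw [h4, map_one]
  have h3 := solv_of_trace B τ.ker hτ hdet htr
  -- the kernel acts by commuting unipotent maps
  obtain ⟨f, hf⟩ : ∃ f : H →* (E ≃ₗ[ℝ] E),
      f = AffineEquiv.linearHom.comp (hol.comp H.subtype) := ⟨_, rfl⟩
  have hfl : ∀ (γ : H) (v : E), f γ v = (hol (γ : Γ)).linear v := by
    intro γ v
    rw [hf]
    rfl
  have hkerB : ∀ γ ∈ B.ker, ∀ w ∈ W, f γ w = w := by
    intro γ hγ w hw
    have h4 : b.equivFun (Bl γ ⟨w, hw⟩) = b.equivFun ⟨w, hw⟩ := by
      rw [hBv, (MonoidHom.mem_ker).1 hγ, Matrix.one_mulVec]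
    have h5 := congrArg (fun x : W => (x : E)) (b.equivFun.injective h4)
    rw [hfl]
    exact h5
  have h4 : derivedSeries H 4 ≤ f.ker := by
    rw [derivedSeries_succ, Subgroup.commutator_le]
    intro a ha c hc
    refine comm_ker f (LinearEquiv.ext fun v => ?_)
    show f a (f c v) = f c (f a v)
    have e1 : ∀ g : H, f g v = v + (f g v - v) := fun g => by abel
    have e2 : ∀ g : H, f g v - v ∈ W := fun g => by rw [hfl]; exact hW g g.2 v
    have e3 : f a (f c v) = f a v + (f c v - v) := by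
      conv_lhs => rw [e1 c, map_add, hkerB a (h3 ha) _ (e2 c)]
    have e4 : f c (f a v) = f c v + (f a v - v) := by
      conv_lhs => rw [e1 a, map_add, hkerB c (h3 hc) _ (e2 a)]
    rw [e3, e4]
    abel
  have h5 : Group.IsSolvable ((⊤ : Subgroup H).map (hol.comp H.subtype)) := by
    refine solv_of_lin _ _ ?_
    rw [← hf]
    exact solv_map_top f 4 h4
  have h6 : (⊤ : Subgroup H).map (hol.comp H.subtype) = H.map hol := by
    rw [← Subgroup.map_map, ← MonoidHom.range_eq_map, Subgroup.range_subtype]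
  rwa [h6] at h5

end Pool.Agent.P8H67.TT
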